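import Mathlib
import Pool.Agent.Helper259.AbsHt
import Pool.Agent.Helper259.RatDef
import Pool.Agent.Helper259.RatMaps

set_option autoImplicit false

/-!
# Heights on quotients and minimal heights in orbits (MP_216eb3_nt)

Let `X` be a quasi-projective variety over the algebraic numbers, with an action of a group `G` and
a geometric quotient `π : X → Y`, `Y` quasi-projective. We show that the height of `π P` and the
infimum of the heights of the points of the orbit of `P` bound each other linearly. Only two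
properties of a geometric quotient are used: `π` is a morphism and its fibres are the orbits.

The height of `π P` is bounded linearly in the height of every point of the orbit, as `π` is given
by forms on finitely many open sets. For the other direction we have to find, in each fibre of `π`,
a point whose height is at most `C (h + 1)`, `h` the height of the image. If there is no such `C`,
choose counterexamples `P_k` for `C = k` and take a nonprincipal ultrapower `K` of the field of
algebraic numbers. The elements of `K` that are represented by sequences whose heights are bounded by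
a multiple of `h(π P_k) + 1` form a subfield `K₀`, and `K₀` is algebraically closed, because the height
of a root is bounded by the heights of the coefficients. The sequence `P_k` is a solution in `K` of a
system of equations and inequations with coefficients in `K₀`, which says that a point is in `X` and
is mapped to `π P_k`. By the Nullstellensatz there is a solution in `K₀`, and for large `k` it
contradicts the choice of `P_k`.
-/

namespace Pool.Agent.Results.MP_216eb3_nt.OrbitHeights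

open Pool.Agent.Helper259 Pool.Agent.Helper259.AbsHt Pool.Agent.Helper259.RatDef

/-! ### Heights of numbers -/

/-- the height of a number -/
noncomputable def hh (z : Qbar) : ℝ := absLogHeight ![1, z]

lemma hh_nonneg (z : Qbar) : 0 ≤ hh z := absLogHeight_nonneg _

lemma hh_mul (a b : Qbar) : hh (a * b) ≤ hh a + hh b := by
  have h1 := absLogHeight_segre (x := ![(1 : Qbar), a]) (y := ![(1 : Qbar), b])
    (fun h => by simpa using congrFun h 0) (fun h => by simpa using congrFun h 0)
  have h2 := absLogHeight_comp_le (![((0 : Fin 2), (0 : Fin 2)), (1, 1)])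
    (fun p : Fin 2 × Fin 2 => ![(1 : Qbar), a] p.1 * ![(1 : Qbar), b] p.2)
  have h3 : (fun p : Fin 2 × Fin 2 => ![(1 : Qbar), a] p.1 * ![(1 : Qbar), b] p.2) ∘
      (![((0 : Fin 2), (0 : Fin 2)), (1, 1)]) = ![1, a * b] := by
    funext j
    fin_cases j <;> simp
  rw [h3, h1] at h2
  exact h2

lemma hh_inv (a : Qbar) : hh a⁻¹ ≤ hh a := by
  by_cases ha : a = 0
  · rw [ha, inv_zero]
  · have h1 := absLogHeight_smul ![1, a⁻¹] ha
    have h2 := absLogHeight_comp_le ![(1 : Fin 2), 0] ![1, a]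
    have h3 : ![1, a] ∘ ![(1 : Fin 2), 0] = a • ![1, a⁻¹] := by
      funext j
      fin_cases j
      · simp
      · simp [ha]
    rw [h3, h1] at h2
    exact h2

lemma exists_hh_add : ∃ C : ℝ, ∀ a b : Qbar, hh (a + b) ≤ C + hh a + hh b := by
  refine ⟨Real.log (Nat.card (Fin 3)) + absLogHeight (fun p : Fin 2 × Fin 3 =>
    if p.1 = 0 then (if p.2 = 0 then (1 : Qbar) else 0) else (if p.2 = 0 then 0 else 1)) + hh 1,
    fun a b => ?_⟩
  have h1 := absLogHeight_linear (fun p : Fin 2 × Fin 3 =>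
    if p.1 = 0 then (if p.2 = 0 then (1 : Qbar) else 0) else (if p.2 = 0 then 0 else 1)) ![1, a, b]
  have h2 := absLogHeight_le_sum ![1, a, b]
  rw [Fin.sum_univ_three] at h2
  have h3 : (fun j : Fin 2 => ∑ i : Fin 3, (fun p : Fin 2 × Fin 3 =>
      if p.1 = 0 then (if p.2 = 0 then (1 : Qbar) else 0) else (if p.2 = 0 then 0 else 1)) (j, i) *
      ![1, a, b] i) = ![1, a + b] := by
    funext j
    fin_cases j
    · simp
    · simp [Fin.sum_univ_three]
  rw [h3] at h1
  have h4 : absLogHeight ![1, ![1, a, b] 0] = hh 1 := rfl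
  have h5 : absLogHeight ![1, ![1, a, b] 1] = hh a := rfl
  have h6 : absLogHeight ![1, ![1, a, b] 2] = hh b := rfl
  rw [h4, h5, h6] at h2
  unfold hh at *
  linarith

open Polynomial HtPoly in
lemma exists_hh_root (n : ℕ) : ∃ C : ℝ, ∀ (P : Qbar[X]) (α : Qbar), P ≠ 0 → P.natDegree ≤ n →
    P.eval α = 0 → hh α ≤ C + ∑ i : Fin (n + 1), hh (P.coeff i) := by
  obtain ⟨C, hC⟩ := absLogHeight_root n
  refine ⟨C, fun P α hP hn h => (hC P α hP hn h).trans ?_⟩
  have := absLogHeight_le_sum (cv n P)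
  have h2 : ∑ i : Fin (n + 1), absLogHeight ![1, cv n P i] = ∑ i : Fin (n + 1), hh (P.coeff i) := rfl
  rw [h2] at this
  linarith

/-! ### The field of moderate sequences in the ultrapower -/

section ultra

open Filter

variable (U : Ultrafilter ℕ) (H : ℕ → ℝ)

/-- the ultrapower -/
abbrev Ult : Type := Germ (U : Filter ℕ) Qbar

/-- the sequences whose heights are bounded by multiples of `H` -/
def Mod (z : Ult U) : Prop :=
  ∃ f : ℕ → Qbar, (f : Ult U) = z ∧ ∃ C : ℝ, ∀ᶠ k in (U : Filter ℕ), hh (f k) ≤ C * H k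

variable {U H}

/-- the field of moderate elements -/
def K₀ (hH : ∀ k, 1 ≤ H k) : Subfield (Ult U) where
  carrier := {z | Mod U H z}
  mul_mem' := by
    rintro _ _ ⟨f, rfl, C, hC⟩ ⟨g, rfl, D, hD⟩
    refine ⟨f * g, rfl, C + D, ?_⟩
    filter_upwards [hC, hD] with k h1 h2
    have := hh_mul (f k) (g k)
    rw [add_mul]
    exact this.trans (add_le_add h1 h2)
  one_mem' := by
    refine ⟨1, rfl, hh 1, Eventually.of_forall fun k => ?_⟩
    have h1 : (1 : ℕ → Qbar) k = 1 := rfl
    rw [h1]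
    exact le_mul_of_one_le_right (hh_nonneg _) (hH k)
  add_mem' := by
    rintro _ _ ⟨f, rfl, C, hC⟩ ⟨g, rfl, D, hD⟩
    obtain ⟨E, hE⟩ := exists_hh_add
    refine ⟨f + g, rfl, |E| + C + D, ?_⟩
    filter_upwards [hC, hD] with k h1 h2
    have h3 := hE (f k) (g k)
    have h4 : E ≤ |E| * H k := (le_abs_self E).trans (le_mul_of_one_le_right (abs_nonneg _) (hH k))
    have h5 : (f + g) k = f k + g k := rfl
    rw [h5]
    linarith
  zero_mem' := by
    refine ⟨0, rfl, hh 0, Eventually.of_forall fun k => ?_⟩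
    have h1 : (0 : ℕ → Qbar) k = 0 := rfl
    rw [h1]
    exact le_mul_of_one_le_right (hh_nonneg _) (hH k)
  neg_mem' := by
    rintro _ ⟨f, rfl, C, hC⟩
    refine ⟨-f, rfl, hh (-1) + C, ?_⟩
    filter_upwards [hC] with k h1
    have h2 := hh_mul (-1) (f k)
    have h3 : (-f) k = -1 * f k := by simp
    have h4 : hh (-1) ≤ hh (-1) * H k := le_mul_of_one_le_right (hh_nonneg _) (hH k)
    rw [h3]
    linarith
  inv_mem' := by
    rintro _ ⟨f, rfl, C, hC⟩
    refine ⟨f⁻¹, rfl, C, ?_⟩
    filter_upwards [hC] with k h1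
    exact (hh_inv (f k)).trans h1

lemma const_mem (hH : ∀ k, 1 ≤ H k) (z : Qbar) : ((fun _ : ℕ => z : ℕ → Qbar) : Ult U) ∈ K₀ hH :=
  ⟨fun _ => z, rfl, hh z, Eventually.of_forall fun k => le_mul_of_one_le_right (hh_nonneg _) (hH k)⟩

open Polynomial in
lemma isAlgClosed_K₀ (hH : ∀ k, 1 ≤ H k) : IsAlgClosed (K₀ (U := U) hH) := by
  apply IsAlgClosed.of_exists_root
  intro p hp hirr
  set n := p.natDegree with hn
  have hn1 : 0 < n := hirr.natDegree_pos
  have hmem : ∀ i : ℕ, Mod U H (p.coeff i : Ult U) := fun i => (p.coeff i).2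
  choose f hf D hD using hmem
  let P : ℕ → Qbar[X] := fun k => X ^ n + ∑ i ∈ Finset.range n, C (f i k) * X ^ i
  have hlt : ∀ k, (∑ i ∈ Finset.range n, C (f i k) * X ^ i : Qbar[X]).degree < n := by
    intro k
    refine (degree_sum_le _ _).trans_lt ?_
    rw [Finset.sup_lt_iff (by exact_mod_cast WithBot.bot_lt_coe n)]
    intro i hi
    exact (degree_C_mul_X_pow_le i (f i k)).trans_lt (by exact_mod_cast Finset.mem_range.1 hi)
  have hPm : ∀ k, (P k).Monic := fun k => monic_X_pow_add (hlt k)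
  have hPd : ∀ k, (P k).natDegree = n := by
    intro k
    have h1 : (P k).degree = n := by
      change (X ^ n + ∑ i ∈ Finset.range n, C (f i k) * X ^ i : Qbar[X]).degree = n
      rw [degree_add_eq_left_of_degree_lt]
      · exact degree_X_pow n
      · rw [degree_X_pow]
        exact hlt k
    exact natDegree_eq_of_degree_eq_some h1
  have hPc : ∀ k, ∀ i < n, (P k).coeff i = f i k := by
    intro k i hi
    change (X ^ n + ∑ i ∈ Finset.range n, C (f i k) * X ^ i : Qbar[X]).coeff i = f i k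
    rw [coeff_add, coeff_X_pow, if_neg hi.ne, zero_add, finsetSum_coeff,
      Finset.sum_eq_single_of_mem i (Finset.mem_range.2 hi)]
    · simp
    · intro j _ hji
      simp [Ne.symm hji]
  have hroot : ∀ k, ∃ r, (P k).IsRoot r := by
    intro k
    apply IsAlgClosed.exists_root
    rw [degree_eq_natDegree (hPm k).ne_zero, hPd]
    exact_mod_cast hn1.ne'
  choose r hr using hroot
  obtain ⟨E, hE⟩ := exists_hh_root n
  have hrm : Mod U H ((r : ℕ → Qbar) : Ult U) := by
    refine ⟨r, rfl, |E| + ∑ i ∈ Finset.range n, D i + hh 1, ?_⟩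
    have h1 : ∀ᶠ k in (U : Filter ℕ), ∀ i ∈ Finset.range n, hh (f i k) ≤ D i * H k := by
      rw [Filter.eventually_all_finset]
      intro i _
      exact hD i
    filter_upwards [h1] with k hk
    have h2 := hE (P k) (r k) (hPm k).ne_zero (hPd k).le (hr k)
    rw [Fin.sum_univ_eq_sum_range (fun i => hh ((P k).coeff i)), Finset.sum_range_succ] at h2
    have h3 : (P k).coeff n = 1 := by
      have := (hPm k).coeff_natDegree
      rwa [hPd k] at this
    rw [h3] at h2
    have h4 : ∑ i ∈ Finset.range n, hh ((P k).coeff i) ≤ ∑ i ∈ Finset.range n, D i * H k := by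
      refine Finset.sum_le_sum fun i hi => ?_
      rw [hPc k i (Finset.mem_range.1 hi)]
      exact hk i hi
    rw [← Finset.sum_mul] at h4
    have h5 : E ≤ |E| * H k := (le_abs_self E).trans (le_mul_of_one_le_right (abs_nonneg _) (hH k))
    have h6 : hh 1 ≤ hh 1 * H k := le_mul_of_one_le_right (hh_nonneg _) (hH k)
    linarith
  refine ⟨⟨_, hrm⟩, ?_⟩
  apply Subtype.ext
  rw [eval_eq_sum_range]
  have e1 : ((∑ i ∈ Finset.range (p.natDegree + 1), p.coeff i * (⟨_, hrm⟩ : K₀ (U := U) hH) ^ i :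
      K₀ (U := U) hH) : Ult U) =
      ∑ i ∈ Finset.range (p.natDegree + 1), (p.coeff i : Ult U) * ((r : ℕ → Qbar) : Ult U) ^ i := by
    push_cast
    rfl
  rw [e1, ← hn, Finset.sum_range_succ]
  have e2 : (p.coeff n : Ult U) = 1 := by
    rw [hn, hp.coeff_natDegree]
    rfl
  rw [e2, one_mul]
  let φ : (ℕ → Qbar) →+* Ult U := Germ.coeRingHom (U : Filter ℕ)
  have e3 : ∀ g : ℕ → Qbar, φ g = (g : Ult U) := fun g => rfl
  have e4 : ∑ i ∈ Finset.range n, (p.coeff i : Ult U) * ((r : ℕ → Qbar) : Ult U) ^ i +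
      ((r : ℕ → Qbar) : Ult U) ^ n = φ (∑ i ∈ Finset.range n, f i * r ^ i + r ^ n) := by
    rw [map_add, map_sum, map_pow]
    congr 1
    refine Finset.sum_congr rfl fun i _ => ?_
    rw [map_mul, map_pow, e3, hf]
    rfl
  rw [e4]
  have e5 : (∑ i ∈ Finset.range n, f i * r ^ i + r ^ n : ℕ → Qbar) = 0 := by
    funext k
    have h1 := hr k
    change (X ^ n + ∑ i ∈ Finset.range n, C (f i k) * X ^ i : Qbar[X]).eval (r k) = 0 at h1
    rw [eval_add, eval_pow, eval_X, eval_finsetSum] at h1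
    simp only [eval_mul, eval_C, eval_pow, eval_X] at h1
    rw [Pi.add_apply, Finset.sum_apply, Pi.pow_apply, Pi.zero_apply, add_comm]
    exact h1
  rw [e5, map_zero]
  rfl

/-- the Nullstellensatz: a finite or infinite system of equations and one inequation which is
solvable in an extension of an algebraically closed field is solvable in the field -/
lemma solve {k K : Type} [Field k] [IsAlgClosed k] [Field K] [Algebra k K] {σ : Type} [Finite σ]
    (S : Set (MvPolynomial σ k)) (q : MvPolynomial σ k) (a : σ → K)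
    (hS : ∀ s ∈ S, MvPolynomial.aeval a s = 0) (hq : MvPolynomial.aeval a q ≠ 0) :
    ∃ b : σ → k, (∀ s ∈ S, MvPolynomial.eval b s = 0) ∧ MvPolynomial.eval b q ≠ 0 := by
  by_contra hcon
  push Not at hcon
  apply hq
  have h1 : q ∈ MvPolynomial.vanishingIdeal k (MvPolynomial.zeroLocus k (Ideal.span S)) := by
    rw [MvPolynomial.mem_vanishingIdeal_iff]
    intro b hb
    rw [MvPolynomial.mem_zeroLocus_iff] at hb
    have e : ∀ s : MvPolynomial σ k, MvPolynomial.aeval b s = MvPolynomial.eval b s := fun s =>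
      DFunLike.congr_fun (MvPolynomial.coe_aeval_eq_eval b) s
    have := hcon b fun s hs => by
      have := hb s (Ideal.subset_span hs)
      rwa [e] at this
    rw [e]
    exact this
  rw [MvPolynomial.vanishingIdeal_zeroLocus_eq_radical] at h1
  obtain ⟨n, hn⟩ := h1
  have h2 : Ideal.span S ≤ RingHom.ker (MvPolynomial.aeval a : MvPolynomial σ k →ₐ[k] K) := by
    rw [Ideal.span_le]
    intro s hs
    exact hS s hs
  have h3 := h2 hn
  rw [RingHom.mem_ker, map_pow] at h3
  have hn0 : n ≠ 0 := by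
    rintro rfl
    rw [pow_zero] at h3
    exact one_ne_zero h3
  exact (pow_eq_zero_iff hn0).1 h3

end ultra

/-! ### Varieties and morphisms -/

open MvPolynomial

/-- A locally closed set of points of projective space: the difference of two Zariski open sets,
that is, the intersection of an open set and a closed set. -/
def IsLocClosed {n : ℕ} (X : Set (PSpace n)) : Prop :=
  ∃ V W : Set (PSpace n), IsZariskiOpen V ∧ IsZariskiOpen W ∧ X = V \ W

/-- A morphism from `X` to projective space: a map which in a neighbourhood of each point is given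
by forms of the same degree which do not vanish simultaneously. -/
def IsMorphism {n m : ℕ} (X : Set (PSpace n)) (π : X → PSpace m) : Prop :=
  ∀ P : X, ∃ V : Set (PSpace n), IsZariskiOpen V ∧ (P : PSpace n) ∈ V ∧
    ∃ (e : ℕ) (F : Fin (m + 1) → MvPolynomial (Fin (n + 1)) Qbar), (∀ j, (F j).IsHomogeneous e) ∧
      ∀ Q : X, (Q : PSpace n) ∈ V →
        ∃ h : (fun j => eval (Q : PSpace n).rep (F j)) ≠ 0,
          π Q = Projectivization.mk Qbar (fun j => eval (Q : PSpace n).rep (F j)) h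

/-- Noetherianity -/
lemma exists_finite {n : ℕ} (T : Set (MvPolynomial (Fin (n + 1)) Qbar)) :
    ∃ T' : Finset (MvPolynomial (Fin (n + 1)) Qbar), (T' : Set _) ⊆ T ∧
      ∀ v : Fin (n + 1) → Qbar, (∃ F ∈ T, eval v F ≠ 0) → ∃ F ∈ T', eval v F ≠ 0 := by
  obtain ⟨T', h1, h2⟩ := (Submodule.fg_span_iff_fg_span_finset_subset T).1
    (IsNoetherian.noetherian (Ideal.span T))
  refine ⟨T', h1, fun v => ?_⟩
  rintro ⟨F, hF, hFv⟩
  by_contra hcon
  push Not at hcon
  apply hFv
  have h3 : Ideal.span (T' : Set (MvPolynomial (Fin (n + 1)) Qbar)) ≤ RingHom.ker (eval v) := by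
    rw [Ideal.span_le]
    intro G hG
    exact hcon G hG
  have h4 : F ∈ Ideal.span (T' : Set (MvPolynomial (Fin (n + 1)) Qbar)) := by
    have h5 : F ∈ Submodule.span (MvPolynomial (Fin (n + 1)) Qbar) T := Submodule.subset_span hF
    rw [h2] at h5
    exact h5
  exact h3 h4

/-- a tuple of forms that gives `π` wherever the forms do not vanish simultaneously -/
structure Good {n m : ℕ} (X : Set (PSpace n)) (π : X → PSpace m) (e : ℕ)
    (F : Fin (m + 1) → MvPolynomial (Fin (n + 1)) Qbar) : Prop where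
  hom : ∀ j, (F j).IsHomogeneous e
  val : ∀ (Q : X) (h : (fun j => eval (Q : PSpace n).rep (F j)) ≠ 0),
    π Q = Projectivization.mk Qbar (fun j => eval (Q : PSpace n).rep (F j)) h

lemma exists_good {n m : ℕ} {X : Set (PSpace n)} {π : X → PSpace m} (hπ : IsMorphism X π) (P : X) :
    ∃ (e : ℕ) (F : Fin (m + 1) → MvPolynomial (Fin (n + 1)) Qbar), Good X π e F ∧
      (fun j => eval (P : PSpace n).rep (F j)) ≠ 0 := by
  obtain ⟨V, ⟨T, hT, rfl⟩, ⟨g, hg, hgP⟩, e, F, hF, hval⟩ := hπ P
  obtain ⟨d, hd⟩ := hT g hg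
  refine ⟨d + e, fun j => g * F j, ⟨fun j => hd.mul (hF j), fun Q h => ?_⟩, ?_⟩
  · have hgQ : eval (Q : PSpace n).rep g ≠ 0 := by
      intro h0
      apply h
      funext j
      simp [h0]
    obtain ⟨h', hQ⟩ := hval Q ⟨g, hg, hgQ⟩
    rw [hQ, Projectivization.mk_eq_mk_iff']
    refine ⟨(eval (Q : PSpace n).rep g)⁻¹, ?_⟩
    funext j
    simp only [Pi.smul_apply, smul_eq_mul, map_mul]
    rw [inv_mul_cancel_left₀ hgQ]
  · obtain ⟨h', -⟩ := hval P ⟨g, hg, hgP⟩
    intro h0
    apply h'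
    funext j
    have := congrFun h0 j
    simp only [map_mul, Pi.zero_apply] at this
    exact (mul_eq_zero.1 this).resolve_left hgP

/-- finitely many good tuples suffice -/
lemma exists_good_finite {n m : ℕ} {X : Set (PSpace n)} {π : X → PSpace m}
    (hπ : IsMorphism X π) :
    ∃ T : Finset (MvPolynomial (Fin (n + 1)) Qbar),
      (∀ G ∈ T, ∃ (e : ℕ) (F : Fin (m + 1) → MvPolynomial (Fin (n + 1)) Qbar) (j : Fin (m + 1)),
        Good X π e F ∧ F j = G) ∧
      ∀ P : X, ∃ G ∈ T, eval (P : PSpace n).rep G ≠ 0 := by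
  obtain ⟨T, hT1, hT2⟩ := exists_finite (n := n) {G | ∃ (e : ℕ)
    (F : Fin (m + 1) → MvPolynomial (Fin (n + 1)) Qbar) (j : Fin (m + 1)), Good X π e F ∧ F j = G}
  refine ⟨T, fun G hG => hT1 hG, fun P => hT2 _ ?_⟩
  obtain ⟨e, F, hF, hFP⟩ := exists_good hπ P
  obtain ⟨j, hj⟩ := Function.ne_iff.1 hFP
  exact ⟨F j, ⟨e, F, j, hF, rfl⟩, hj⟩

/-- the height of the image is bounded by the height -/
lemma lower {n m : ℕ} {X : Set (PSpace n)} {π : X → PSpace m} (hπ : IsMorphism X π) :
    ∃ C D : ℝ, 0 < D ∧ ∀ Q : X, ht (π Q) ≤ C + D * ht (Q : PSpace n) := by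
  obtain ⟨T, hT, hTX⟩ := exists_good_finite hπ
  have h1 : ∀ G : MvPolynomial (Fin (n + 1)) Qbar, ∃ C D : ℝ, 0 ≤ C ∧ 0 ≤ D ∧ (G ∈ T → ∀ Q : X,
      eval (Q : PSpace n).rep G ≠ 0 → ht (π Q) ≤ C + D * ht (Q : PSpace n)) := by
    intro G
    by_cases hG : G ∈ T
    · obtain ⟨e, F, j, hF, rfl⟩ := hT G hG
      obtain ⟨C, hC⟩ := absLogHeight_eval e F hF.hom
      refine ⟨|C|, e, abs_nonneg C, Nat.cast_nonneg e, fun _ Q hQ => ?_⟩
      have h0 : (fun j => eval (Q : PSpace n).rep (F j)) ≠ 0 := by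
        intro h
        exact hQ (congrFun h j)
      rw [hF.val Q h0, RatMaps.ht_mk]
      have h2 := hC (Q : PSpace n).rep
      have h3 := le_abs_self C
      unfold ht
      linarith
    · exact ⟨0, 0, le_rfl, le_rfl, fun h => absurd h hG⟩
  choose C D hC hD hCD using h1
  refine ⟨∑ G ∈ T, C G, ∑ G ∈ T, D G + 1, ?_, fun Q => ?_⟩
  · have : 0 ≤ ∑ G ∈ T, D G := Finset.sum_nonneg fun G _ => hD G
    linarith
  · obtain ⟨G, hG, hGQ⟩ := hTX Q
    have h2 := hCD G hG Q hGQ
    have h3 : C G ≤ ∑ G ∈ T, C G := Finset.single_le_sum (fun G _ => hC G) hG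
    have h4 : D G ≤ ∑ G ∈ T, D G := Finset.single_le_sum (fun G _ => hD G) hG
    have h5 : 0 ≤ ht (Q : PSpace n) := absLogHeight_nonneg _
    nlinarith

section transfer

open Filter

variable {U : Ultrafilter ℕ} {H : ℕ → ℝ}

/-- the constants -/
noncomputable def cst (U : Ultrafilter ℕ) : Qbar →+* Ult U :=
  (Germ.coeRingHom (U : Filter ℕ)).comp (Pi.constRingHom ℕ Qbar)

/-- the constants as moderate elements -/
noncomputable def cst₀ (hH : ∀ k, 1 ≤ H k) : Qbar →+* K₀ (U := U) hH :=
  (cst U).codRestrict (K₀ hH) fun z => const_mem hH z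

lemma germ_eval {σ : Type} (s : MvPolynomial σ Qbar) (f : ℕ → σ → Qbar) :
    eval₂ (cst U) (fun i => ((fun k => f k i : ℕ → Qbar) : Ult U)) s =
      ((fun k => eval (f k) s : ℕ → Qbar) : Ult U) := by
  have h1 := eval₂_comp_left (Germ.coeRingHom (U : Filter ℕ)) (Pi.constRingHom ℕ Qbar)
    (fun i => (fun k => f k i : ℕ → Qbar)) s
  have h2 : eval₂ (Pi.constRingHom ℕ Qbar) (fun i => (fun k => f k i : ℕ → Qbar)) s =
      fun k => eval (f k) s := by
    funext k
    have h3 := eval₂_comp_left (Pi.evalRingHom (fun _ : ℕ => Qbar) k) (Pi.constRingHom ℕ Qbar)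
      (fun i => (fun k => f k i : ℕ → Qbar)) s
    exact h3
  rw [h2] at h1
  exact h1.symm

lemma aeval_cst₀ (hH : ∀ k, 1 ≤ H k) {σ : Type} (s : MvPolynomial σ Qbar) (f : ℕ → σ → Qbar) :
    aeval (fun i => ((fun k => f k i : ℕ → Qbar) : Ult U)) (map (cst₀ (U := U) hH) s) =
      ((fun k => eval (f k) s : ℕ → Qbar) : Ult U) := by
  rw [← germ_eval, aeval_def, eval₂_map]
  rfl

lemma eval_cst₀ (hH : ∀ k, 1 ≤ H k) {σ : Type} (s : MvPolynomial σ Qbar) (f : ℕ → σ → Qbar)
    (b : σ → K₀ (U := U) hH) (hb : ∀ i, (b i : Ult U) = ((fun k => f k i : ℕ → Qbar) : Ult U)) :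
    ((eval b (map (cst₀ (U := U) hH) s) : K₀ (U := U) hH) : Ult U) =
      ((fun k => eval (f k) s : ℕ → Qbar) : Ult U) := by
  rw [← germ_eval, eval_map]
  have h1 := eval₂_comp_left (K₀ (U := U) hH).subtype (cst₀ (U := U) hH) b s
  have h2 : (K₀ (U := U) hH).subtype ∘ b = fun i => ((fun k => f k i : ℕ → Qbar) : Ult U) :=
    funext hb
  rw [h2] at h1
  exact h1

end transfer

open Filter in
/-- every fibre contains a point of small height -/
lemma upper {n m : ℕ} {X : Set (PSpace n)} (hX : IsLocClosed X) {π : X → PSpace m}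
    (hπ : IsMorphism X π) :
    ∃ C : ℝ, ∀ P : X, ∃ Q : X, π Q = π P ∧ ht (Q : PSpace n) ≤ C * (ht (π P) + 1) := by
  by_contra hcon
  push Not at hcon
  choose x hx using fun k : ℕ => hcon k
  obtain ⟨V, W, ⟨TV, hTV, rfl⟩, ⟨TW, hTW, rfl⟩, rfl⟩ := hX
  obtain ⟨TV', hTV1, hTV2⟩ := exists_finite TV
  obtain ⟨TW', hTW1, hTW2⟩ := exists_finite TW
  obtain ⟨T, hT, hTX⟩ := exists_good_finite hπ
  set H : ℕ → ℝ := fun k => ht (π (x k)) + 1 with hHdef
  have hH : ∀ k, 1 ≤ H k := fun k => by
    have : 0 ≤ ht (π (x k)) := absLogHeight_nonneg _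
    simp only [hHdef]
    linarith
  set U : Ultrafilter ℕ := hyperfilter ℕ with hU
  -- choices by the ultrafilter
  obtain ⟨t, ht1, ht2⟩ : ∃ t ∈ TV', ∀ᶠ k in (U : Filter ℕ),
      eval (x k : PSpace n).rep t ≠ 0 := by
    have h1 : ∀ᶠ k in (U : Filter ℕ), ∃ t ∈ (TV' : Set (MvPolynomial (Fin (n + 1)) Qbar)),
        eval (x k : PSpace n).rep t ≠ 0 := Eventually.of_forall fun k => hTV2 _ (x k).2.1
    exact (Ultrafilter.eventually_exists_mem_iff (Finset.finite_toSet TV')).1 h1
  obtain ⟨G, hG1, hG2⟩ : ∃ G ∈ T, ∀ᶠ k in (U : Filter ℕ),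
      eval (x k : PSpace n).rep G ≠ 0 := by
    have h1 : ∀ᶠ k in (U : Filter ℕ), ∃ G ∈ (T : Set (MvPolynomial (Fin (n + 1)) Qbar)),
        eval (x k : PSpace n).rep G ≠ 0 := Eventually.of_forall fun k => hTX (x k)
    exact (Ultrafilter.eventually_exists_mem_iff (Finset.finite_toSet T)).1 h1
  obtain ⟨e, F, j, hF, rfl⟩ := hT G hG1
  obtain ⟨i, hi⟩ : ∃ i : Fin (n + 1), ∀ᶠ k in (U : Filter ℕ), (x k : PSpace n).rep i ≠ 0 := by
    rw [← Ultrafilter.eventually_exists_iff]
    exact Eventually.of_forall fun k => Function.ne_iff.1 (x k : PSpace n).rep_nonzero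
  -- normalised coordinates
  set a : ℕ → Fin (n + 1) → Qbar := fun k => ((x k : PSpace n).rep i)⁻¹ • (x k : PSpace n).rep
    with ha
  set b : ℕ → Fin (m + 1) → Qbar := fun k => (eval (x k : PSpace n).rep (F j))⁻¹ •
    fun j' => eval (x k : PSpace n).rep (F j') with hb
  have hbm : ∀ j', Mod U H ((fun k => b k j' : ℕ → Qbar) : Ult U) := by
    intro j'
    refine ⟨fun k => b k j', rfl, 1, ?_⟩
    filter_upwards [hG2] with k hk
    have h0 : (fun j => eval (x k : PSpace n).rep (F j)) ≠ 0 := fun h => hk (congrFun h j)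
    have h1 : ht (π (x k)) = absLogHeight (b k) := by
      rw [hF.val (x k) h0, RatMaps.ht_mk]
      exact (absLogHeight_smul _ (inv_ne_zero hk)).symm
    have h2 : b k j = 1 := by
      simp only [hb, Pi.smul_apply, smul_eq_mul]
      exact inv_mul_cancel₀ hk
    have h3 := aff_le_of_eq_one (b k) j h2 j'
    rw [← h1] at h3
    change absLogHeight ![1, b k j'] ≤ 1 * (ht (π (x k)) + 1)
    linarith
  have : IsAlgClosed (K₀ (U := U) hH) := isAlgClosed_K₀ hH
  -- the system
  let bb : Fin (m + 1) → K₀ (U := U) hH := fun j' => ⟨_, hbm j'⟩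
  let S : Set (MvPolynomial (Fin (n + 1)) (K₀ (U := U) hH)) :=
    {MvPolynomial.X i - 1} ∪ ((fun s => map (cst₀ (U := U) hH) s) '' (TW' : Set _)) ∪
      Set.range fun j' => map (cst₀ (U := U) hH) (F j') -
        MvPolynomial.C (bb j') * map (cst₀ (U := U) hH) (F j)
  obtain ⟨v, hv1, hv2⟩ := solve (k := K₀ (U := U) hH) (K := Ult U) S
    (map (cst₀ (U := U) hH) t * map (cst₀ (U := U) hH) (F j))
    (fun i' => ((fun k => a k i' : ℕ → Qbar) : Ult U)) (by
      rintro s ((hs | ⟨s, hs, rfl⟩) | ⟨j', rfl⟩)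
      · rw [Set.mem_singleton_iff] at hs
        rw [hs, map_sub, aeval_X, map_one, sub_eq_zero]
        refine Germ.coe_eq.2 ?_
        filter_upwards [hi] with k hk
        simp only [ha, Pi.smul_apply, smul_eq_mul]
        exact inv_mul_cancel₀ hk
      · rw [aeval_cst₀]
        refine Germ.coe_eq.2 (Eventually.of_forall fun k => ?_)
        obtain ⟨d, hd⟩ := hTW s (hTW1 hs)
        have h1 : eval (a k) s = ((x k : PSpace n).rep i)⁻¹ ^ d *
            eval (x k : PSpace n).rep s := RatMaps.eval_smul hd _ _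
        have h2 : eval (x k : PSpace n).rep s = 0 := by
          by_contra h
          exact (x k).2.2 ⟨s, hTW1 hs, h⟩
        simp only [h1, h2, mul_zero]
      · rw [map_sub, map_mul, aeval_cst₀, aeval_cst₀, sub_eq_zero, aeval_C]
        change ((fun k => eval (a k) (F j') : ℕ → Qbar) : Ult U) =
          ((fun k => b k j' : ℕ → Qbar) : Ult U) * ((fun k => eval (a k) (F j) : ℕ → Qbar) : Ult U)
        rw [← Germ.coe_mul]
        refine Germ.coe_eq.2 ?_
        filter_upwards [hG2] with k hk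
        have h1 : ∀ j, eval (a k) (F j) = ((x k : PSpace n).rep i)⁻¹ ^ e *
            eval (x k : PSpace n).rep (F j) := fun j => RatMaps.eval_smul (hF.hom j) _ _
        rw [Pi.mul_apply, h1, h1]
        simp only [hb, Pi.smul_apply, smul_eq_mul]
        field_simp) (by
      rw [map_mul, aeval_cst₀, aeval_cst₀, ← Germ.coe_mul]
      intro h
      have h' := Germ.coe_eq.1 h
      have h3 : ∀ᶠ k in (U : Filter ℕ), False := by
        filter_upwards [h', hG2, ht2, hi] with k h1 h2 h3 h4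
        obtain ⟨d, hd⟩ := hTV t (hTV1 ht1)
        have h5 : eval (a k) t = ((x k : PSpace n).rep i)⁻¹ ^ d *
            eval (x k : PSpace n).rep t := RatMaps.eval_smul hd _ _
        have h6 : eval (a k) (F j) = ((x k : PSpace n).rep i)⁻¹ ^ e *
            eval (x k : PSpace n).rep (F j) := RatMaps.eval_smul (hF.hom j) _ _
        rw [Pi.mul_apply, h5, h6] at h1
        have h7 : ((x k : PSpace n).rep i)⁻¹ ≠ 0 := inv_ne_zero h4
        exact (mul_ne_zero (mul_ne_zero (pow_ne_zero _ h7) h3)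
          (mul_ne_zero (pow_ne_zero _ h7) h2)) h1
      exact h3.exists.elim fun _ h => h)
  -- lift the solution
  choose f hf D hD using fun i' => (v i').2
  have hvi : ∀ i', (v i' : Ult U) = ((fun k => (fun k i' => f i' k) k i' : ℕ → Qbar) : Ult U) :=
    fun i' => (hf i').symm
  have e1 : ∀ᶠ k in (U : Filter ℕ), f i k = 1 := by
    have h1 := hv1 (MvPolynomial.X i - 1) (Or.inl (Or.inl rfl))
    rw [map_sub, eval_X, map_one, sub_eq_zero] at h1
    have h2 : ((f i : ℕ → Qbar) : Ult U) = ((1 : ℕ → Qbar) : Ult U) := by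
      rw [hf, h1]
      rfl
    exact Germ.coe_eq.1 h2
  have e2 : ∀ᶠ k in (U : Filter ℕ), ∀ s ∈ TW', eval (fun i' => f i' k) s = 0 := by
    rw [Filter.eventually_all_finset]
    intro s hs
    have h1 := hv1 _ (Or.inl (Or.inr ⟨s, hs, rfl⟩))
    have h2 := eval_cst₀ hH s (fun k i' => f i' k) v hvi
    rw [h1] at h2
    exact Germ.coe_eq.1 h2.symm
  have e3 : ∀ᶠ k in (U : Filter ℕ), ∀ j', eval (fun i' => f i' k) (F j') =
      b k j' * eval (fun i' => f i' k) (F j) := by
    rw [Filter.eventually_all]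
    intro j'
    have h1 := hv1 _ (Or.inr ⟨j', rfl⟩)
    rw [map_sub, map_mul, eval_C, sub_eq_zero] at h1
    have h2 := eval_cst₀ hH (F j') (fun k i' => f i' k) v hvi
    have h3 := eval_cst₀ hH (F j) (fun k i' => f i' k) v hvi
    rw [h1] at h2
    have h4 : ((bb j' * eval v (map (cst₀ (U := U) hH) (F j)) : K₀ (U := U) hH) : Ult U) =
        ((fun k => b k j' : ℕ → Qbar) : Ult U) *
          ((eval v (map (cst₀ (U := U) hH) (F j)) : K₀ (U := U) hH) : Ult U) := rfl
    rw [h4, h3, ← Germ.coe_mul] at h2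
    exact Germ.coe_eq.1 h2.symm
  have e4 : ∀ᶠ k in (U : Filter ℕ), eval (fun i' => f i' k) t ≠ 0 ∧
      eval (fun i' => f i' k) (F j) ≠ 0 := by
    have h2 := eval_cst₀ hH t (fun k i' => f i' k) v hvi
    have h3 := eval_cst₀ hH (F j) (fun k i' => f i' k) v hvi
    have h4 : ¬ ∀ᶠ k in (U : Filter ℕ), eval (fun i' => f i' k) t *
        eval (fun i' => f i' k) (F j) = 0 := by
      intro h5
      apply hv2
      apply Subtype.ext
      rw [map_mul]
      have h6 : ((eval v (map (cst₀ (U := U) hH) t) * eval v (map (cst₀ (U := U) hH) (F j)) :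
          K₀ (U := U) hH) : Ult U) = ((eval v (map (cst₀ (U := U) hH) t) : K₀ (U := U) hH) : Ult U) *
          ((eval v (map (cst₀ (U := U) hH) (F j)) : K₀ (U := U) hH) : Ult U) := rfl
      rw [h6, h2, h3, ← Germ.coe_mul]
      exact Germ.coe_eq.2 h5
    rw [← Ultrafilter.eventually_not] at h4
    filter_upwards [h4] with k hk
    exact mul_ne_zero_iff.1 hk
  have e5 : ∀ᶠ k in (U : Filter ℕ), ∀ i', hh (f i' k) ≤ D i' * H k := by
    rw [Filter.eventually_all]
    exact hD
  obtain ⟨N, hN⟩ := exists_nat_ge (∑ i', D i')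
  have e6 : ∀ᶠ k in (U : Filter ℕ), N ≤ k := Nat.hyperfilter_le_atTop (eventually_ge_atTop N)
  obtain ⟨k, h1, h2, h3, ⟨h4, h4'⟩, h5, h6, h7⟩ :=
    (e1.and (e2.and (e3.and (e4.and (e5.and (e6.and hG2)))))).exists
  set w : Fin (n + 1) → Qbar := fun i' => f i' k with hw
  have hw0 : w ≠ 0 := by
    intro h
    have := congrFun h i
    rw [hw] at this
    simp only [h1, Pi.zero_apply] at this
    exact one_ne_zero this
  have hQ : (Projectivization.mk Qbar w hw0 : PSpace n) ∈ {P : PSpace n | ∃ F ∈ TV,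
      eval P.rep F ≠ 0} \ {P : PSpace n | ∃ F ∈ TW, eval P.rep F ≠ 0} := by
    refine ⟨?_, ?_⟩
    · obtain ⟨d, hd⟩ := hTV t (hTV1 ht1)
      exact ⟨t, hTV1 ht1, (RatMaps.eval_mk hd w hw0).2 h4⟩
    · intro h
      obtain ⟨s, hs, hsQ⟩ := hTW2 _ h
      obtain ⟨d, hd⟩ := hTW s (hTW1 hs)
      exact ((RatMaps.eval_mk hd w hw0).1 hsQ) (h2 s hs)
  have hπQ : π ⟨_, hQ⟩ = π (x k) := by
    have h0 : (fun j => eval (x k : PSpace n).rep (F j)) ≠ 0 := fun h => h7 (congrFun h j)
    have h8 : eval (Projectivization.mk Qbar w hw0 : PSpace n).rep (F j) ≠ 0 :=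
      (RatMaps.eval_mk (hF.hom j) w hw0).2 h4'
    have h0' : (fun j => eval (Projectivization.mk Qbar w hw0 : PSpace n).rep (F j)) ≠ 0 :=
      fun h => h8 (congrFun h j)
    rw [hF.val (x k) h0, hF.val ⟨_, hQ⟩ h0', Projectivization.mk_eq_mk_iff']
    obtain ⟨c, hc⟩ := Projectivization.exists_smul_eq_mk_rep Qbar w hw0
    refine ⟨(c : Qbar) ^ e * eval w (F j) * (eval (x k : PSpace n).rep (F j))⁻¹, ?_⟩
    funext j'
    have h9 : eval (Projectivization.mk Qbar w hw0 : PSpace n).rep (F j') =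
        (c : Qbar) ^ e * eval w (F j') := by
      rw [← hc]
      exact RatMaps.eval_smul (hF.hom j') _ _
    simp only [Pi.smul_apply, smul_eq_mul]
    rw [h9, h3 j']
    simp only [hb, Pi.smul_apply, smul_eq_mul]
    ring
  have hlt := hx k ⟨_, hQ⟩ hπQ
  have hle : ht (Projectivization.mk Qbar w hw0 : PSpace n) ≤ k * H k := by
    rw [RatMaps.ht_mk]
    refine (absLogHeight_le_sum w).trans ?_
    calc ∑ i', absLogHeight ![1, w i'] ≤ ∑ i', D i' * H k :=
          Finset.sum_le_sum fun i' _ => h5 i'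
      _ = (∑ i', D i') * H k := by rw [Finset.sum_mul]
      _ ≤ k * H k := by
          refine mul_le_mul_of_nonneg_right (hN.trans ?_) (zero_le_one.trans (hH k))
          exact_mod_cast h6
  exact absurd hlt (not_lt.2 hle)

/-- **Main result.** Let `X` be a quasi-projective variety over the algebraic numbers, with an action
of a group `G`, and let `π` be a morphism to projective space whose fibres are the orbits of `G`
(for instance the quotient map of a geometric quotient). Then the height of `π P` and the minimal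
height in the orbit of `P` bound each other linearly. -/
theorem result {n m : ℕ} (X : Set (PSpace n)) (hX : IsLocClosed X) (G : Type*) [Group G]
    [MulAction G X] (π : X → PSpace m) (hπ : IsMorphism X π)
    (horb : ∀ P Q : X, π P = π Q ↔ ∃ g : G, g • P = Q) :
    ∃ c₁ c₂ c₃ c₄ : ℝ, 0 < c₁ ∧ 0 < c₂ ∧ ∀ P : X,
      c₁ * ht (π P) - c₃ ≤ ⨅ g : G, ht ((g • P : X) : PSpace n) ∧
      ⨅ g : G, ht ((g • P : X) : PSpace n) ≤ c₂ * ht (π P) + c₄ := by
  obtain ⟨A, D, hD, hAD⟩ := lower hπ
  obtain ⟨C, hC⟩ := upper hX hπ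
  refine ⟨D⁻¹, |C| + 1, D⁻¹ * A, |C| + 1, inv_pos.2 hD, by positivity, fun P => ⟨?_, ?_⟩⟩
  · refine le_ciInf fun g => ?_
    have h1 : π (g • P) = π P := ((horb P (g • P)).2 ⟨g, rfl⟩).symm
    have h2 := hAD (g • P)
    rw [h1] at h2
    rw [← mul_sub, inv_mul_le_iff₀ hD]
    linarith
  · obtain ⟨Q, hQ1, hQ2⟩ := hC P
    obtain ⟨g, hg⟩ := (horb P Q).1 hQ1.symm
    have h3 : ⨅ g : G, ht ((g • P : X) : PSpace n) ≤ ht ((g • P : X) : PSpace n) :=
      ciInf_le ⟨0, by rintro _ ⟨g, rfl⟩; exact absLogHeight_nonneg _⟩ g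
    rw [hg] at h3
    have h4 : 0 ≤ ht (π P) := absLogHeight_nonneg _
    have h5 := le_abs_self C
    nlinarith

end Pool.Agent.Results.MP_216eb3_nt.OrbitHeights
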